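import Mathlib
import Pool.Agent.Helper94.VQ.Fin

/-!
# Voisin's conjecture for multi-double planes

Let `C₁`, `C₂` be smooth projective curves over an algebraically closed field `k` of
characteristic zero, `V₁`, `V₂` finite elementary abelian 2-groups of automorphisms of `C₁`, `C₂`
with rational quotients `C₁ / V₁` and `C₂ / V₂`, `G` an arbitrary subgroup of `V₁ × V₂` and
`S = (C₁ × C₂) / G`. The surfaces birational to such an `S` are those with function field
`k(x, y)(√(f₁(x) g₁(y)), …, √(f_r(x) g_r(y)))`, for instance all double planes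
`w² = f(x) g(y)`. One has

`p_g(S) = ∑ g(C₁ / ker χ₁) g(C₂ / ker χ₂)`,

the sum over the pairs of characters `χ₁` of `V₁` and `χ₂` of `V₂` with values `± 1` such that
`χ₁ χ₂` is trivial on `G`. For `n > p_g(S)` and Albanese trivial zero-cycles `a_1, …, a_n`
on `S`, the alternating sum of the exterior products `a_{σ(1)} × ⋯ × a_{σ(n)}` is torsion in the
Chow group of zero-cycles of `S ^ n`.

Outline of the proof.
* Riemann's inequality on the quotient curve `C / H`, `H` a group of automorphisms of the curve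
  `C`, together with lifts of the Galois closure of a function on `C / H` gives: the
  symmetrization of `∏ (P_H x_j - P_H o)` over `g(C / H) + 1` positions, `P_H x = ∑_{h ∈ H} [h x]`,
  is torsion in the Chow group.
* A pulled back cycle is decomposed with respect to the characters of `V₁ × V₂`; by the pigeonhole
  principle in each term some pair `(χ₁, χ₂)` occurs at more than `g(C₁ / ker χ₁) g(C₂ / ker χ₂)`
  positions, and the alternating sum over these positions vanishes.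
-/

namespace Pool.Agent.Results.MP_83b46e_ag.MultiDoublePlanes

open VC VQ

universe u

theorem result {k : Type u} [Field k] [IsAlgClosed k] [CharZero k]
    {F₁ F₂ : Type u} [Field F₁] [Algebra k F₁] [Field F₂] [Algebra k F₂]
    (h₁ : IsFunctionField k F₁) (h₂ : IsFunctionField k F₂)
    (V₁ : Subgroup (F₁ ≃ₐ[k] F₁)) (V₂ : Subgroup (F₂ ≃ₐ[k] F₂)) [Finite V₁] [Finite V₂]
    (e₁ : ∀ σ : V₁, σ * σ = 1) (e₂ : ∀ σ : V₂, σ * σ = 1)
    (_r₁ : IsGenus k (IntermediateField.fixedField V₁) 0)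
    (_r₂ : IsGenus k (IntermediateField.fixedField V₂) 0)
    (G : Subgroup (V₁ × V₂))
    (g₁ : (V₁ →* ℤˣ) → ℕ) (g₂ : (V₂ →* ℤˣ) → ℕ)
    (hg₁ : ∀ χ, IsGenus k (IntermediateField.fixedField (χ.ker.map V₁.subtype)) (g₁ χ))
    (hg₂ : ∀ χ, IsGenus k (IntermediateField.fixedField (χ.ker.map V₂.subtype)) (g₂ χ))
    (n : ℕ)
    (hn : ∑ᶠ χ : {χ : (V₁ →* ℤˣ) × (V₂ →* ℤˣ) // ∀ s ∈ G, χ.1 s.1 * χ.2 s.2 = 1},
      g₁ χ.1.1 * g₂ χ.1.2 < n)
    (a : Fin n → (quotSurface h₁ h₂ V₁ V₂ G).Cycles)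
    (ha : ∀ i, AlbaneseTrivial (curve h₁) (curve h₂) (pullCycle h₁ h₂ V₁ V₂ G (a i))) :
    ∃ m : ℕ, 0 < m ∧ m • ∑ σ : Equiv.Perm (Fin n), ((Equiv.Perm.sign σ : ℤˣ) : ℤ) •
      extProd (fun i => a (σ i)) ∈ ((quotSurface h₁ h₂ V₁ V₂ G).pow n).Rat :=
  alternating_quot h₁ h₂ V₁ V₂ G n e₁ e₂ g₁ g₂ (fun χ => (hg₁ χ).1) (fun χ => (hg₂ χ).1) hn a ha

end Pool.Agent.Results.MP_83b46e_ag.MultiDoublePlanes
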